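import Pool.Agent.W623.SecG.Res
import Pool.Agent.W623.SecG.Loc2
import Pool.Agent.W262.G3.Fin2

/-!
# Sections of twists of curves with rational branch points come from branch points modulo 2

Let `N ≥ 6` be even and let `e_1, …, e_N` be different integers which satisfy the condition `CrossRatio`
below, for instance `0, 1, 2, 3, 4, 5`.  For squarefree `d` let `C_d` be the curve
`d y² = ∏ (x - e_k)`, with function field `F = ℚ(x, y)` and with the rational points
`P_k = (e_k, 0)`.  Let `F_U` be the maximal extension of `F` unramified over `U`, where `U` is `C_d`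
or an open subcurve, so that `π₁(U) = Gal(F_U/F)`, and let `M₂ ⊆ F_U` be the extension of `F` generated
by the algebraic numbers and the square roots of the functions `(x - e_i)/(x - e_j)`; they generate
the maximal abelian extension of exponent 2 of `F ℚ̄` that is unramified over `C_d`.

Then for all squarefree `d`, `|d| ≤ X`, with at most `C X (log X)^(-1/5)` exceptions, the following
weak form of the valuative section conjecture holds for `C_d`: for every section
`s : G_ℚ → π₁(U)` there is exactly one branch point `P_k` such that the image of `s` in `Gal(M₂/F)`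
lies in the decomposition group of a prolongation to `M₂` of the valuation of `F` at `P_k`.

The fundamental group is described through valuations.  Let `U` be a smooth geometrically connected
curve over `k` with function field `F`, let `Ω` be an algebraic closure of `F`, and let `F_U` be the
maximal extension of `F` inside `Ω` which is unramified over the closed points of `U`, that is, over
their local rings, which are valuation rings of `F`.  Then `π₁(U) = Gal(F_U/F)`, and the map
`π₁(U) → G_k` is the restriction of automorphisms to the algebraic closure of `k` in `Ω`.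

Proof.  A section `s` for `d` gives square classes `s_{kl}` of rational numbers, such that
`s_{kl} (x - e_k)(x - e_l)` is the square of an element of `F_U` fixed by `s`.  At a prime `p` of good
reduction not dividing `d` the `s_{kl}` have even valuation.  If `p` divides `d`, then by the theory
of sections at a place of multiplicative type (parts SecC, SecE and SecG of helper623) there is a root
`e_i` such that for all `k, l ≠ i` the number `s_{kl} (e_i - e_k)(e_i - e_l)` is a square modulo `p`.
The number of `d`, `|d| ≤ X`, with such a system `(s_{kl})` which is not the one of a branch point is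
bounded by bilinear sums of Jacobi symbols (part G3 of helper262).  If the system is the one of the
branch point `P_k`, then the square roots of the `(x - e_i)(x - e_j)(e_k - e_i)(e_k - e_j)`,
`i, j ≠ k`, are fixed by `s`; they have expansions in powers of the local parameter `y` at `P_k` with
rational coefficients, and `M₂` is generated by them and the algebraic numbers.
-/

open Polynomial

namespace Pool.Agent.Results.MP_896029_ag.BranchPoints

universe u v w

section definitions

variable (k : Type u) (F : Type v) (Ω : Type w) [Field k] [Field F] [Field Ω] [Algebra k F]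
  [Algebra F Ω] [Algebra k Ω]

/-- The inertia group of the valuation ring `W` of `Ω`, as a subgroup of `Gal(Ω/F)`: the
automorphisms of `Ω` over `F` that map `W` onto itself and act as the identity on its residue
field. -/
noncomputable def inertia (W : ValuationSubring Ω) : Subgroup (Ω ≃ₐ[F] Ω) :=
  (W.inertiaSubgroup F).map (W.decompositionSubgroup F).subtype

/-- `F_U`, for a set `U` of valuation rings of `F`: the elements of `Ω` fixed by the inertia groups
of all valuation rings `W` of `Ω` with `W ∩ F ∈ U`.  If `Ω` is an algebraic closure of a field `F`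
of characteristic zero, this is the maximal extension of `F` in `Ω` unramified over `U`. -/
noncomputable def unramified (U : Set (ValuationSubring F)) : IntermediateField F Ω :=
  ⨅ W : {W : ValuationSubring Ω // W.comap (algebraMap F Ω) ∈ U},
    IntermediateField.fixedField (inertia F Ω W.1)

/-- The map `τ : M → M` acts as `σ : K → K` on the elements that the fields `K` and `M` have in
common when they are regarded as subfields of `Ω` through `i` and `j`. -/
def ActsAs {K M Ω : Type*} [Field K] [Field M] [Field Ω] (i : K →+* Ω) (j : M →+* Ω) (σ : K → K)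
    (τ : M → M) : Prop :=
  ∀ c z, j z = i c → j (τ z) = i (σ c)

/-- Let `k ⊆ K ⊆ Ω` and `F ⊆ M ⊆ Ω` be fields.  A splitting of `Gal(M/F) → Gal(K/k)`: a continuous
homomorphism `s` from `Gal(K/k)` to `Gal(M/F)` such that `s(σ)` acts as `σ` on the elements of
`K ∩ M`. -/
structure Splitting (K M : Type*) [Field K] [Field M] [Algebra k K] [Algebra F M] [Algebra K Ω]
    [Algebra M Ω] where
  /-- the homomorphism `Gal(K/k) → Gal(M/F)` -/
  toHom : (K ≃ₐ[k] K) →* (M ≃ₐ[F] M)
  cont : Continuous toHom
  compat : ∀ σ : K ≃ₐ[k] K, ActsAs (algebraMap K Ω) (algebraMap M Ω) σ (toHom σ)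

/-- The sections of `π₁(U) = Gal(F_U/F) → G_k`: the continuous homomorphisms `s` from
`G_k = Gal(k̄/k)` to `Gal(F_U/F)`, where `k̄` is the algebraic closure of `k` in `Ω`, such that
`s(σ)` acts as `σ` on the elements of `k̄`. -/
abbrev GaloisSection (U : Set (ValuationSubring F)) : Type w :=
  Splitting k F Ω (algebraicClosure k Ω) (unramified F Ω U)

end definitions

section attached

variable {k F M K : Type*} [Field k] [Field F] [Field M] [Algebra k F] (j : F →+* M) (e : K → k)
  (x : F)

/-- `z` is algebraic over `k`, where `k` is mapped to `M` by `i`. -/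
def AlgOver {k M : Type*} [Field k] [Field M] (i : k →+* M) (z : M) : Prop :=
  ∃ p : k[X], p ≠ 0 ∧ p.eval₂ i z = 0

/-- The subfield `M₂` of the extension `M` of `F`, generated over `F` by all elements of `M` that are
algebraic over `k`, and by all square roots in `M` of the functions `(x - e_i)/(x - e_j)`. -/
def M₂ : Subfield M :=
  Subfield.closure (Set.range j ∪ {z | AlgOver (j.comp (algebraMap k F)) z} ∪
    {z | ∃ i i', z ^ 2 * j (x - algebraMap k F (e i')) = j (x - algebraMap k F (e i))})

/-- The valuation ring `W` of `M` contains `k`, the function `t` is in its maximal ideal, and the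
residue field of `W ∩ F` is `k`. -/
def LiesAbove (W : ValuationSubring M) (t : F) : Prop :=
  (∀ c : k, j (algebraMap k F c) ∈ W) ∧ j t ∈ W.nonunits ∧
    ∀ z : F, j z ∈ W → ∃ c : k, j (z - algebraMap k F c) ∈ W.nonunits

/-- The splitting `s` of `Gal(M/F) → Gal(L/k)` is attached to the branch point `P_i` (modulo 2): there
is a valuation ring `W` of `M` above `P_i`, such that the image of `s` lies in the decomposition group
of `W ∩ M₂`. -/
def Attached {L Ω : Type*} [Field L] [Field Ω] [Algebra F Ω] [Algebra k Ω] [Algebra k L]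
    [Algebra F M] [Algebra L Ω] [Algebra M Ω] (s : Splitting k F Ω L M) (i : K) : Prop :=
  ∃ W : ValuationSubring M, LiesAbove (k := k) (algebraMap F M) W (x - algebraMap k F (e i)) ∧
    ∀ z ∈ M₂ (algebraMap F M) e x, ∀ σ, s.toHom σ z ∈ W ↔ z ∈ W

end attached

/-- Let `F` be the function field of the curve `d y² = ∏ (x - e_i)` over `k`, and let `Ω` be an
algebraic closure of `F`.  For every set `U` of valuation rings of `F` over `k` and every section of
`π₁(U) → G_k` there is exactly one branch point to which the section is attached modulo 2.  Such `U`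
are given by the smooth projective curve and by all its open subcurves. -/
def SectionsAttached {k : Type u} [Field k] {K : Type} [Fintype K] (e : K → k) (d : k) : Prop :=
  ∀ (F : Type v) (Ω : Type w) [Field F] [Field Ω] [Algebra k F] [Algebra F Ω] [Algebra k Ω]
    [IsScalarTower k F Ω] [IsAlgClosure F Ω] (x y : F) (U : Set (ValuationSubring F)),
    Transcendental k x → algebraMap k F d * y ^ 2 = ∏ i, (x - algebraMap k F (e i)) →
    IntermediateField.adjoin k {x, y} = (⊤ : IntermediateField k F) →
    (∀ O ∈ U, ∀ c : k, algebraMap k F c ∈ O) →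
    ∀ s : GaloisSection k F Ω U, ∃! i : K, Attached e x s i

/-- The condition on the branch points: for `i ≠ k` there are `l, l'` different from `i` and `k`, such
that the integer `(e_i - e_l) (e_i - e_l') (e_k - e_l) (e_k - e_l')` is not a square. -/
def CrossRatio {K : Type} (e : K → ℤ) : Prop :=
  ∀ i k, i ≠ k → ∃ l l', l ≠ i ∧ l ≠ k ∧ l' ≠ i ∧ l' ≠ k ∧
    ¬ IsSquare ((e i - e l) * (e i - e l') * ((e k - e l) * (e k - e l')))

lemma M₂_eq {k : Type u} {F : Type v} {Ω : Type w} [Field k] [Field F] [Field Ω] [Algebra k F]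
    [Algebra F Ω] [Algebra k Ω] [IsScalarTower k F Ω] (U : Set (ValuationSubring F)) {K : Type}
    (e : K → k) (x : F) : M₂ (algebraMap F (unramified F Ω U)) e x =
      (Pool.Agent.W623.SecG.Mtwo (Ω := Ω) k U e x).toSubfield := by
  have halg : ∀ z : unramified F Ω U,
      AlgOver ((algebraMap F (unramified F Ω U)).comp (algebraMap k F)) z ↔ IsAlgebraic k z := by
    intro z
    have h1 : (algebraMap F (unramified F Ω U)).comp (algebraMap k F) =
        algebraMap k (unramified F Ω U) := by
      ext c
      exact (IsScalarTower.algebraMap_apply k F Ω c).symm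
    unfold AlgOver
    rw [h1]
    rfl
  have hset : (Set.range (algebraMap F (unramified F Ω U)) ∪
      {z | AlgOver ((algebraMap F (unramified F Ω U)).comp (algebraMap k F)) z} ∪
      {z | ∃ i i', z ^ 2 * (algebraMap F (unramified F Ω U)) (x - algebraMap k F (e i')) =
        (algebraMap F (unramified F Ω U)) (x - algebraMap k F (e i))}) =
      Set.range (algebraMap F (unramified F Ω U)) ∪ ({z | IsAlgebraic k z} ∪
        {z | ∃ i j, z ^ 2 * algebraMap F _ (x - algebraMap k F (e j)) =
          algebraMap F _ (x - algebraMap k F (e i))}) := by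
    rw [Set.union_assoc]
    congr 2
    ext z
    exact halg z
  unfold M₂
  rw [hset]
  rfl

/-- from sections attached in the sense of square classes to attached sections -/
lemma attached_of {k : Type u} [Field k] [CharZero k] {K : Type} [Fintype K] [DecidableEq K]
    (e : K → k) (he : Function.Injective e) (hev : Even (Fintype.card K)) (d : k) (hd : d ≠ 0)
    (hCR : ∀ i j, i ≠ j → ∃ l l', l ≠ i ∧ l ≠ j ∧ l' ≠ i ∧ l' ≠ j ∧
      ¬ IsSquare ((e i - e l) * (e i - e l') * ((e j - e l) * (e j - e l'))))
    (hex : ∀ (F : Type v) (Ω : Type w) [Field F] [Field Ω] [Algebra k F] [Algebra F Ω]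
      [Algebra k Ω] [IsScalarTower k F Ω] [IsAlgClosed Ω] [Algebra.IsAlgebraic F Ω]
      (U : Set (ValuationSubring F)) (G : Pool.Agent.W620.SC.GSection k F Ω U) (x y : F),
      (∀ O ∈ U, ∀ c : k, algebraMap k F c ∈ O) → Transcendental k x →
      algebraMap k F d * y ^ 2 = ∏ i, (x - algebraMap k F (e i)) →
      ∃ i, Pool.Agent.W623.SecG.AtK G x e i) : SectionsAttached.{u, v, w} e d := by
  intro F Ω _ _ _ _ _ _ _ x y U hx hxy hF hU s
  have hcl : IsAlgClosed Ω := IsAlgClosure.isAlgClosed F
  have halg : Algebra.IsAlgebraic F Ω := IsAlgClosure.isAlgebraic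
  obtain ⟨i, hi⟩ := hex F Ω U ⟨s.toHom, s.cont, s.compat⟩ x y hU hx hxy
  have hat := Pool.Agent.W623.SecG.attached hU ⟨s.toHom, s.cont, s.compat⟩ e he d hd x y hx hxy hev
    i hF hi
  have hM := M₂_eq (Ω := Ω) U e x
  have hmem : ∀ z, z ∈ M₂ (algebraMap F (unramified F Ω U)) e x ↔
      z ∈ Pool.Agent.W623.SecG.Mtwo (Ω := Ω) k U e x := fun z => by
    rw [hM]
    rfl
  refine ⟨i, ?_, ?_⟩
  · obtain ⟨W, h1, h2, h3, h4⟩ := hat
    exact ⟨W, ⟨h1, h2, h3⟩, fun z hz => h4 z ((hmem z).1 hz)⟩
  intro j hj
  by_contra hne
  obtain ⟨l, l', h1, h2, h3, h4, hsq⟩ := hCR i j (Ne.symm hne)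
  apply hsq
  obtain ⟨W, hW1, hW2, -, hW3⟩ := hat
  obtain ⟨W', ⟨hW1', hW2', -⟩, hW3'⟩ := hj
  exact Pool.Agent.W623.SecG.attached_unique hU ⟨s.toHom, s.cont, s.compat⟩ e he d hd x y hx hxy
    i j ⟨W, hW1, hW2, hW3⟩ ⟨W', hW1', hW2', fun z hz => hW3' z ((hmem z).2 hz)⟩ l l' h1 h2 h3 h4

lemma crossRatio_ex : CrossRatio (fun i : Fin 6 => (i : ℤ)) := by
  have h : ∀ i k : Fin 6, i ≠ k → ∃ l l' : Fin 6, l ≠ i ∧ l ≠ k ∧ l' ≠ i ∧ l' ≠ k ∧
      (((i : ℕ) : ℤ) - ((l : ℕ) : ℤ)) * (((i : ℕ) : ℤ) - ((l' : ℕ) : ℤ)) *
        ((((k : ℕ) : ℤ) - ((l : ℕ) : ℤ)) * (((k : ℕ) : ℤ) - ((l' : ℕ) : ℤ))) < 900 ∧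
      ∀ r : Fin 30, (((i : ℕ) : ℤ) - ((l : ℕ) : ℤ)) * (((i : ℕ) : ℤ) - ((l' : ℕ) : ℤ)) *
        ((((k : ℕ) : ℤ) - ((l : ℕ) : ℤ)) * (((k : ℕ) : ℤ) - ((l' : ℕ) : ℤ))) ≠
        ((r : ℕ) : ℤ) * ((r : ℕ) : ℤ) := by
    decide
  intro i k hik
  obtain ⟨l, l', h1, h2, h3, h4, h5, h6⟩ := h i k hik
  refine ⟨l, l', h1, h2, h3, h4, ?_⟩
  rintro ⟨r, hr⟩
  simp only at hr
  rw [hr] at h5
  have h7 : r.natAbs < 30 := by
    by_contra hge
    push Not at hge
    have h8 : (r.natAbs : ℤ) * (r.natAbs : ℤ) = r * r := Int.natAbs_mul_self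
    have h9 : (30 : ℤ) ≤ (r.natAbs : ℤ) := by exact_mod_cast hge
    nlinarith
  apply h6 ⟨r.natAbs, h7⟩
  rw [hr]
  exact Int.natAbs_mul_self.symm

/-- (1) Let `e_k` be `N` different integers, where `N ≥ 6` is even, that satisfy the condition
`CrossRatio`.  Then for all squarefree `d`, `|d| ≤ X`, with at most `C X (log X)^(-1/5)` exceptions,
every section of the fundamental group of the curve `d y² = ∏ (x - e_k)`, or of an open subcurve, is
attached modulo 2 to exactly one of the branch points `(e_k, 0)`.  (2) The integers `0, …, 5` satisfy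
the condition `CrossRatio`. -/
theorem result :
    (∀ (K : Type) [Fintype K] (e : K → ℤ), Function.Injective e → Even (Fintype.card K) →
      6 ≤ Fintype.card K → CrossRatio e → ∃ C : ℝ, ∀ X : ℕ, 2 ≤ X →
        ({d : ℤ | d.natAbs ≤ X ∧ Squarefree d ∧
            ¬ SectionsAttached.{0, v, w} (fun k => (e k : ℚ)) (d : ℚ)}.ncard : ℝ) ≤
          C * X * (Real.log X) ^ (-(1 / 5) : ℝ)) ∧
    CrossRatio (fun i : Fin 6 => (i : ℤ)) := by
  refine ⟨?_, crossRatio_ex⟩
  intro K _ e he hev hK hCR
  classical
  obtain ⟨C, hC⟩ := Pool.Agent.W262.G3.fin2.{v, w} Pool.Agent.W623.SecG.secloc2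
    Pool.Agent.W623.SecE.secglob K e he hev hK hCR
  refine ⟨C, fun X hX => le_trans ?_ (hC X hX)⟩
  have hfin : {d : ℤ | d.natAbs ≤ X ∧ Squarefree d ∧
      Pool.Agent.W623.SecG.Bad2.{v, w} e d}.Finite := by
    refine (Finset.finite_toSet (Finset.Icc (-(X : ℤ)) X)).subset ?_
    rintro d ⟨hd1, -⟩
    rw [Finset.mem_coe, Finset.mem_Icc]
    omega
  have hsub : {d : ℤ | d.natAbs ≤ X ∧ Squarefree d ∧
      ¬ SectionsAttached.{0, v, w} (fun k => (e k : ℚ)) (d : ℚ)} ⊆
      {d : ℤ | d.natAbs ≤ X ∧ Squarefree d ∧ Pool.Agent.W623.SecG.Bad2.{v, w} e d} := by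
    rintro d ⟨hd1, hd2, hd3⟩
    refine ⟨hd1, hd2, ?_⟩
    by_contra hbad
    apply hd3
    refine attached_of _ (fun i j hij => he ?_) hev _ (by exact_mod_cast hd2.ne_zero) ?_ ?_
    · have h1 : (e i : ℚ) = (e j : ℚ) := hij
      exact_mod_cast h1
    · intro i j hij
      obtain ⟨l, l', h1, h2, h3, h4, hsq⟩ := hCR i j hij
      refine ⟨l, l', h1, h2, h3, h4, fun h5 => hsq ?_⟩
      have h6 : ((e i : ℚ) - e l) * (e i - e l') * ((e j - e l) * (e j - e l')) =
          (((e i - e l) * (e i - e l') * ((e j - e l) * (e j - e l')) : ℤ) : ℚ) := by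
        push_cast
        ring
      rw [h6, Rat.isSquare_intCast_iff] at h5
      exact h5
    · intro F Ω _ _ _ _ _ _ hcl halg U G x y hU hx hxy
      by_contra hno
      push Not at hno
      refine hbad ⟨F, Ω, inferInstance, inferInstance, inferInstance, inferInstance,
        inferInstance, inferInstance, hcl, halg, U, G, x, y, hU, hx, ?_, fun k hk =>
        hno k (Pool.Agent.W623.SecG.atK_of_At G x e k hk)⟩
      simp only [map_intCast] at hxy
      exact hxy
  exact_mod_cast Set.ncard_le_ncard hsub hfin

end Pool.Agent.Results.MP_896029_ag.BranchPoints
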